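import Mathlib

open Matrix
open scoped Kronecker ComplexOrder Matrix.Norms.L2Operator MatrixOrder

namespace Pool.Agent.Results.MP_2a866c_an.NotCLP

/-- square complex matrices -/
abbrev M (n : ℕ) := Matrix (Fin n) (Fin n) ℂ

/-- operator norm -/
noncomputable def opn {n : ℕ} (X : M n) : ℝ := ‖X‖

/-- a real-linear map between the hermitian parts -/
def RL {n k : ℕ} (Φ : M n → M k) : Prop :=
  (∀ X, X.IsHermitian → (Φ X).IsHermitian) ∧
  ∀ (X Y : M n) (a b : ℝ), X.IsHermitian → Y.IsHermitian →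
    Φ ((a : ℂ) • X + (b : ℂ) • Y) = (a : ℂ) • Φ X + (b : ℂ) • Φ Y

/-- real-linear on hermitian matrices, unital and positive -/
def UP {n k : ℕ} (Φ : M n → M k) : Prop :=
  RL Φ ∧ Φ 1 = 1 ∧ ∀ X, X.PosSemidef → (Φ X).PosSemidef

/-- index set of the big space -/
abbrev I (n α β ζ : ℕ) := (Fin n × Fin α) ⊕ (Fin n × Fin β) ⊕ Fin ζ

/-- the direct sum of X ⊗ 1, Xᵀ ⊗ 1 and F -/
def B {n : ℕ} (α β : ℕ) {ζ : ℕ} (X : M n) (F : M ζ) : Matrix (I n α β ζ) (I n α β ζ) ℂ :=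
  fromBlocks (X ⊗ₖ (1 : M α)) 0 0 (fromBlocks (Xᵀ ⊗ₖ (1 : M β)) 0 0 F)

/-- generalized CLP isometry -/
def GenCLP {n k : ℕ} (Φ : M n → M k) : Prop :=
  ∃ (α β ζ : ℕ) (f : M n → M ζ) (V : Matrix (I n α β ζ) (Fin k) ℂ),
    UP f ∧ Vᴴ * V = 1 ∧
    (∀ h : Fin n → ℂ, h ≠ 0 → ∃ (v : Fin k → ℂ) (h₁ : Fin α → ℂ) (h₂ : Fin β → ℂ),
      V *ᵥ v ≠ 0 ∧ V *ᵥ v = Sum.elim (fun p => h p.1 * h₁ p.2)
        (Sum.elim (fun p => star (h p.1) * h₂ p.2) 0)) ∧
    ∀ X : M n, X.IsHermitian → Φ X = Vᴴ * B α β X (f X) * V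

def Ψ (X : Matrix (Fin 2) (Fin 2) ℂ) : Matrix (Fin 4) (Fin 4) ℂ :=
  !![8 * X 0 0 - 2 * (X 0 1 + X 1 0) + 5 * X 1 1, 2 * (X 1 0 - X 0 0), 0, 0;
     2 * (X 0 1 - X 0 0), 2 * X 0 0, X 1 0, 0;
     0, X 0 1, X 1 1, -2 * X 1 0 - X 1 1;
     0, 0, -2 * X 0 1 - X 1 1, 12 * X 0 0 + 6 * X 1 1]

lemma Ψ_add (X Y) : Ψ (X + Y) = Ψ X + Ψ Y := by
  ext i j; fin_cases i <;> fin_cases j <;> simp [Ψ] <;> ring

lemma Ψ_smul (c : ℝ) (X) : Ψ (c • X) = c • Ψ X := by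
  ext i j; fin_cases i <;> fin_cases j <;> simp [Ψ] <;> ring

lemma Ψ_star (X) : Ψ Xᴴ = (Ψ X)ᴴ := by
  ext i j; fin_cases i <;> fin_cases j <;> simp [Ψ, map_ofNat] <;> ring

lemma Ψ_det (X) (h : X.det = 0) : (Ψ X).det = 0 := by
  rw [det_fin_two] at h
  simp [Ψ, det_succ_row_zero, Fin.sum_univ_succ, Fin.succAbove]
  linear_combination (144 * X 0 0 ^ 2 - 24 * X 0 0 * X 0 1 - 24 * X 0 0 * X 1 0 +
    180 * X 0 0 * X 1 1 - 16 * X 0 1 * X 1 0 - 20 * X 0 1 * X 1 1 - 20 * X 1 0 * X 1 1 +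
    50 * X 1 1 ^ 2) * h

lemma Ψ_rank1 (v : Fin 2 → ℂ) : (Ψ (vecMulVec v (star v))).PosSemidef := by
  refine .of_dotProduct_mulVec_nonneg (by
    rw [IsHermitian, ← Ψ_star, conjTranspose_vecMulVec, star_star]) fun u => ?_
  by_cases hv : v = 0
  · have : Ψ (vecMulVec v (star v)) = 0 := by
      ext i j; fin_cases i <;> fin_cases j <;> simp [Ψ, hv]
    simp [this]
  obtain ⟨D, hD⟩ : ∃ D : ℝ, D = 4 * Complex.normSq (v 0) + 4 * Complex.normSq (v 1) +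
    Complex.normSq (2 * v 0 - v 1) := ⟨_, rfl⟩
  obtain ⟨r, hr⟩ : ∃ r : ℝ, r = 12 * Complex.normSq (v 0) + 6 * Complex.normSq (v 1) := ⟨_, rfl⟩
  have h0 : 0 < Complex.normSq (v 0) + Complex.normSq (v 1) := by
    by_contra hh
    have a := Complex.normSq_nonneg (v 0)
    have b := Complex.normSq_nonneg (v 1)
    apply hv
    ext i; fin_cases i
    · exact Complex.normSq_eq_zero.1 (by show Complex.normSq (v 0) = 0; linarith)
    · exact Complex.normSq_eq_zero.1 (by show Complex.normSq (v 1) = 0; linarith)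
  have hD0 : 0 < D := by linarith [Complex.normSq_nonneg (2 * v 0 - v 1)]
  have hr0 : 0 < r := by linarith [Complex.normSq_nonneg (v 0)]
  have key : star u ⬝ᵥ Ψ (vecMulVec v (star v)) *ᵥ u * ((D * r : ℝ) : ℂ) =
      ((r * Complex.normSq (D * u 0 + 2 * (v 1 - v 0) * star (v 0) * u 1) +
       D * Complex.normSq (r * u 3 - (2 * v 0 + v 1) * star (v 1) * u 2) +
       Complex.normSq (r * v 0 * u 1 + D * v 1 * u 2) : ℝ) : ℂ) := by
    rw [hD, hr]
    simp only [Complex.ofReal_add, Complex.ofReal_mul, Complex.normSq_eq_conj_mul_self]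
    simp [Ψ, dotProduct, mulVec, Fin.sum_univ_four, vecMulVec_apply, map_ofNat]
    ring
  have h1 : (0 : ℂ) < ((D * r : ℝ) : ℂ) := by exact_mod_cast mul_pos hD0 hr0
  rw [eq_div_of_mul_eq h1.ne' key, ← Complex.ofReal_div]
  exact_mod_cast div_nonneg (add_nonneg (add_nonneg (mul_nonneg hr0.le (Complex.normSq_nonneg _))
    (mul_nonneg hD0.le (Complex.normSq_nonneg _))) (Complex.normSq_nonneg _)) (mul_pos hD0 hr0).le

lemma Ψ_psd {X} (h : X.PosSemidef) : (Ψ X).PosSemidef := by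
  obtain ⟨m, v, rfl⟩ := posSemidef_iff_eq_sum_vecMulVec.1 h
  refine Finset.sum_induction _ (fun Y => (Ψ Y).PosSemidef) (fun a b ha hb => ?_) ?_
    fun i _ => Ψ_rank1 _
  · rw [Ψ_add]; exact ha.add hb
  · have : Ψ 0 = 0 := by ext i j; fin_cases i <;> fin_cases j <;> simp [Ψ]
    rw [this]; exact PosSemidef.zero

noncomputable def S (a b c : ℝ) : Matrix (Fin 4) (Fin 4) ℂ :=
  !![a, 0, 0, 0; a, b, 0, 0; 0, 0, 1, c; 0, 0, 0, c]

noncomputable def S' (a b c : ℝ) : Matrix (Fin 4) (Fin 4) ℂ :=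
  !![a⁻¹, 0, 0, 0; -b⁻¹, b⁻¹, 0, 0; 0, 0, 1, -1; 0, 0, 0, c⁻¹]

lemma exS : ∃ S S' : Matrix (Fin 4) (Fin 4) ℂ, S * S' = 1 ∧ S' * S = 1 ∧ Sᴴ * Ψ 1 * S = 1 := by
  have e : ∀ t : ℝ, 0 < t → ∃ a : ℝ, (a : ℂ) ≠ 0 ∧ (a : ℂ) * a * t = 1 := fun t ht =>
    ⟨(√t)⁻¹, by have := Real.sqrt_pos.2 ht; exact_mod_cast (inv_pos.2 this).ne', by
      have := Real.sqrt_pos.2 ht
      have h : (√t)⁻¹ * (√t)⁻¹ * t = 1 := by
        field_simp; exact (Real.sq_sqrt ht.le).symm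
      exact_mod_cast h⟩
  obtain ⟨a, ha, ha2⟩ := e 11 (by norm_num)
  obtain ⟨b, hb, hb2⟩ := e 2 (by norm_num)
  obtain ⟨c, hc, hc2⟩ := e 17 (by norm_num)
  push_cast at ha2 hb2 hc2
  have h1 : S a b c * S' a b c = 1 := by
    ext i j; fin_cases i <;> fin_cases j <;> simp [S, S', mul_apply, Fin.sum_univ_four, ha, hb, hc]
  refine ⟨S a b c, S' a b c, h1, mul_eq_one_comm.1 h1, ?_⟩
  ext i j
  simp only [mul_apply, Fin.sum_univ_four, conjTranspose_apply]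
  fin_cases i <;> fin_cases j <;> simp [S, Ψ] <;> grind

def yv (z : ℂ) : Fin 4 → ℂ :=
  ![2 * z * (z - 1), -z * (8 - 2 * (z + star z) + 5 * z * star z), 12 + 6 * z * star z,
    star z * (2 + z)]

lemma ker (z : ℂ) (h0 : z ≠ 0) (h1 : z ≠ 1) (u : Fin 4 → ℂ)
    (h : Ψ (vecMulVec ![1, z] (star ![1, z])) *ᵥ u = 0) :
    (2 * z * (z - 1)) • u = u 0 • yv z := by
  have e0 := congrFun h 0
  have e1 := congrFun h 1
  have e2 := congrFun h 2
  have e3 := congrFun h 3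
  simp [Ψ, mulVec, dotProduct, Fin.sum_univ_four, vecMulVec_apply] at e0 e1 e2 e3
  have hr : (12 : ℂ) + 6 * z * (starRingEnd ℂ) z ≠ 0 := by
    rw [mul_assoc, Complex.mul_conj]
    have := Complex.normSq_nonneg z
    exact_mod_cast (by positivity : (12 : ℝ) + 6 * Complex.normSq z ≠ 0)
  have a1 : 2 * z * (z - 1) * u 1 = u 0 * yv z 1 := by
    simp [yv]; linear_combination z * e0
  have a2 : 2 * z * (z - 1) * u 2 = u 0 * yv z 2 := by
    simp [yv]; linear_combination 2 * (z - 1) * e1 - 2 * e0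
  ext i; fin_cases i
  · simp [yv]; ring
  · exact a1
  · exact a2
  · show 2 * z * (z - 1) * u 3 = u 0 * yv z 3
    apply mul_left_cancel₀ hr
    have b2 : yv z 2 = 12 + 6 * z * (starRingEnd ℂ) z := rfl
    have b3 : yv z 3 = (starRingEnd ℂ) z * (2 + z) := rfl
    rw [b2] at a2
    rw [b3]
    linear_combination 2 * z * (z - 1) * e3 + (starRingEnd ℂ) z * (2 + z) * a2

lemma span1 (a b : Fin 4 → ℂ)
    (h : ∀ z : ℂ, z ≠ 0 → z ≠ 1 → a ⬝ᵥ yv z + star z * (b ⬝ᵥ yv z) = 0) : a = 0 ∧ b = 0 := by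
  have h1 := h (-1) (by norm_num) (by norm_num)
  have h2 := h 2 (by norm_num) (by norm_num)
  have h3 := h (-2) (by norm_num) (by norm_num)
  have h4 := h 3 (by norm_num) (by norm_num)
  have h5 := h ⟨0, 1⟩ (by simp [Complex.ext_iff]) (by simp [Complex.ext_iff])
  have h6 := h ⟨0, -1⟩ (by simp [Complex.ext_iff]) (by simp [Complex.ext_iff])
  have h7 := h ⟨1, 1⟩ (by simp [Complex.ext_iff]) (by simp [Complex.ext_iff])
  have h8 := h ⟨-1, 1⟩ (by simp [Complex.ext_iff]) (by simp [Complex.ext_iff])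
  simp [yv, dotProduct, Fin.sum_univ_four, Complex.ext_iff] at h1 h2 h3 h4 h5 h6 h7 h8
  obtain ⟨h1, h1'⟩ := h1
  obtain ⟨h2, h2'⟩ := h2
  obtain ⟨h3, h3'⟩ := h3
  obtain ⟨h4, h4'⟩ := h4
  obtain ⟨h5, h5'⟩ := h5
  obtain ⟨h6, h6'⟩ := h6
  obtain ⟨h7, h7'⟩ := h7
  obtain ⟨h8, h8'⟩ := h8
  constructor <;> ext i <;> fin_cases i <;> apply Complex.ext <;> simp <;> linarith

lemma span2 (a b : Fin 4 → ℂ)
    (h : ∀ z : ℂ, z ≠ 0 → z ≠ 1 → a ⬝ᵥ yv z + z * (b ⬝ᵥ yv z) = 0) : a = 0 ∧ b = 0 := by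
  have h1 := h (-1) (by norm_num) (by norm_num)
  have h2 := h 2 (by norm_num) (by norm_num)
  have h3 := h (-2) (by norm_num) (by norm_num)
  have h4 := h 3 (by norm_num) (by norm_num)
  have h5 := h ⟨0, 1⟩ (by simp [Complex.ext_iff]) (by simp [Complex.ext_iff])
  have h6 := h ⟨0, -1⟩ (by simp [Complex.ext_iff]) (by simp [Complex.ext_iff])
  have h7 := h ⟨1, 1⟩ (by simp [Complex.ext_iff]) (by simp [Complex.ext_iff])
  have h8 := h ⟨-1, 1⟩ (by simp [Complex.ext_iff]) (by simp [Complex.ext_iff])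
  simp [yv, dotProduct, Fin.sum_univ_four, Complex.ext_iff] at h1 h2 h3 h4 h5 h6 h7 h8
  obtain ⟨h1, h1'⟩ := h1
  obtain ⟨h2, h2'⟩ := h2
  obtain ⟨h3, h3'⟩ := h3
  obtain ⟨h4, h4'⟩ := h4
  obtain ⟨h5, h5'⟩ := h5
  obtain ⟨h6, h6'⟩ := h6
  obtain ⟨h7, h7'⟩ := h7
  obtain ⟨h8, h8'⟩ := h8
  constructor <;> ext i <;> fin_cases i <;> apply Complex.ext <;> simp <;> linarith

theorem result : ∃ (n k : ℕ) (Φ : M n → M k), 1 ≤ n ∧ 1 ≤ k ∧ UP Φ ∧
    (∀ X : M n, X.IsHermitian → opn (Φ X) = opn X) ∧ ¬ GenCLP Φ := by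
  obtain ⟨S, S', hS1, hS2, hS⟩ := exS
  let Φ : M 2 → M 4 := fun X => Sᴴ * Ψ X * S
  have hΦ : ∀ X, Φ X = Sᴴ * Ψ X * S := fun _ => rfl
  have hH : ∀ X : M 2, X.IsHermitian → (Φ X).IsHermitian := fun X hX =>
    isHermitian_conjTranspose_mul_mul S (by rw [IsHermitian, ← Ψ_star]; exact congrArg Ψ hX)
  have hlin : ∀ (r : ℝ) (X : Matrix (Fin 2) (Fin 2) ℂ), Sᴴ * Ψ (algebraMap ℝ _ r - X) * S =
      algebraMap ℝ _ r - Sᴴ * Ψ X * S := fun r X => by
    rw [Algebra.algebraMap_eq_smul_one, Algebra.algebraMap_eq_smul_one, sub_eq_add_neg,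
      ← neg_one_smul ℝ X, Ψ_add, Ψ_smul, Ψ_smul, mul_add, add_mul, mul_smul_comm, smul_mul_assoc,
      hS, mul_smul_comm, smul_mul_assoc, neg_one_smul, sub_eq_add_neg]
  refine ⟨2, 4, Φ, by norm_num, by norm_num, ⟨⟨hH, fun X Y a b _ _ => ?_⟩, hS,
    fun X hX => (Ψ_psd hX).conjTranspose_mul_mul_same S⟩, fun X hX0 => ?_, ?_⟩
  · simp only [hΦ, Complex.coe_smul, Ψ_add, Ψ_smul, mul_add, add_mul, mul_smul_comm,
      smul_mul_assoc]
  · show ‖Φ X‖ = ‖X‖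
    have hX : IsSelfAdjoint X := hX0
    have hY : IsSelfAdjoint (Φ X) := hH X hX0
    apply le_antisymm
    · have a1 : Φ X ≤ algebraMap ℝ _ ‖X‖ := by
        rw [le_iff, hΦ, ← hlin]
        exact (Ψ_psd hX.le_algebraMap_norm_self).conjTranspose_mul_mul_same S
      have a2 : algebraMap ℝ _ (-‖X‖) ≤ Φ X := by
        rw [le_iff, ← neg_sub, hΦ, ← hlin, ← neg_mul, ← mul_neg, ← neg_one_smul ℝ (Ψ _), ← Ψ_smul,
          neg_one_smul, neg_sub, map_neg]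
        exact (Ψ_psd hX.neg_algebraMap_norm_le_self).conjTranspose_mul_mul_same S
      rcases CStarAlgebra.norm_or_neg_norm_mem_spectrum hY with h | h
      · exact (le_algebraMap_iff_spectrum_le hY).1 a1 _ h
      · linarith [(algebraMap_le_iff_le_spectrum hY).1 a2 _ h]
    · have key : ∀ r : ℝ, r ∈ spectrum ℝ X → ‖r‖ ≤ ‖Φ X‖ := fun r hr => by
        apply spectrum.norm_le_norm_of_mem
        rw [spectrum.mem_iff, isUnit_iff_isUnit_det, isUnit_iff_ne_zero, not_not] at hr ⊢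
        rw [hΦ, ← hlin, det_mul, det_mul, Ψ_det _ hr, mul_zero, zero_mul]
      rcases CStarAlgebra.norm_or_neg_norm_mem_spectrum hX with h | h
      · simpa using key _ h
      · simpa using key _ h
  · rintro ⟨α, β, ζ, f, V, -, hV, h1, h2⟩
    have main : ∀ z : ℂ, z ≠ 0 → z ≠ 1 → ∃ (h₁ : Fin α → ℂ) (h₂ : Fin β → ℂ),
        (V * S') *ᵥ yv z = Sum.elim (fun p => ![-star z, 1] p.1 * h₁ p.2)
          (Sum.elim (fun p => star (![-star z, 1] p.1) * h₂ p.2) 0) := fun z z0 z1 => by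
      obtain ⟨v, h₁, h₂, hv0, hv⟩ := h1 ![-star z, 1] (fun h => by simpa using congrFun h 1)
      have hh := h2 (vecMulVec ![1, z] (star ![1, z])) (by
        rw [IsHermitian, conjTranspose_vecMulVec, star_star])
      rw [hΦ] at hh
      have h3 : (Sᴴ * Ψ (vecMulVec ![1, z] (star ![1, z])) * S) *ᵥ v = 0 := by
        rw [hh, ← mulVec_mulVec, ← mulVec_mulVec, hv]
        refine (congrArg (Vᴴ *ᵥ ·) ?_).trans (mulVec_zero _)
        ext i
        rcases i with ⟨i, j⟩ | ⟨i, j⟩ | i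
        · fin_cases i <;> simp [B, mulVec, dotProduct, Fintype.sum_prod_type, one_apply] <;> ring
        · fin_cases i <;> simp [B, mulVec, dotProduct, Fintype.sum_prod_type, one_apply] <;> ring
        · simp [B, mulVec, dotProduct]
      have h4 : Ψ (vecMulVec ![1, z] (star ![1, z])) *ᵥ (S *ᵥ v) = 0 := by
        have := congrArg (S'ᴴ *ᵥ ·) h3
        simp only [mulVec_mulVec, ← mul_assoc, ← conjTranspose_mul, hS1, conjTranspose_one,
          one_mul, mulVec_zero] at this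
        rwa [mulVec_mulVec]
      have h5 := congrArg ((V * S') *ᵥ ·) (ker z z0 z1 _ h4)
      simp only [mulVec_smul, mulVec_mulVec, Matrix.mul_assoc, hS2, Matrix.mul_one] at h5
      have hz : 2 * z * (z - 1) ≠ 0 := mul_ne_zero (mul_ne_zero two_ne_zero z0) (sub_ne_zero.2 z1)
      have h6 : (S *ᵥ v) 0 ≠ 0 := fun h => by
        rw [h, zero_smul] at h5
        exact hv0 ((smul_eq_zero.1 h5).resolve_left hz)
      refine ⟨(((S *ᵥ v) 0)⁻¹ * (2 * z * (z - 1))) • h₁,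
        (((S *ᵥ v) 0)⁻¹ * (2 * z * (z - 1))) • h₂, ?_⟩
      rw [← inv_smul_smul₀ h6 ((V * S') *ᵥ yv z), ← h5, hv]
      ext i
      rcases i with ⟨i, j⟩ | ⟨i, j⟩ | i <;> simp <;> ring
    have hT : V * S' = 0 := by
      ext1 i
      rcases i with ⟨i, j⟩ | ⟨i, j⟩ | i
      · have := span1 ((V * S') (Sum.inl (0, j))) ((V * S') (Sum.inl (1, j))) fun z z0 z1 => by
          obtain ⟨h₁, h₂, h⟩ := main z z0 z1
          have a := congrFun h (Sum.inl (0, j))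
          have b := congrFun h (Sum.inl (1, j))
          simp only [mulVec] at a b
          rw [a, b]; simp
        fin_cases i
        · exact congrFun this.1
        · exact congrFun this.2
      · have := span2 ((V * S') (Sum.inr (Sum.inl (0, j)))) ((V * S') (Sum.inr (Sum.inl (1, j))))
          fun z z0 z1 => by
          obtain ⟨h₁, h₂, h⟩ := main z z0 z1
          have a := congrFun h (Sum.inr (Sum.inl (0, j)))
          have b := congrFun h (Sum.inr (Sum.inl (1, j)))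
          simp only [mulVec] at a b
          rw [a, b]; simp
        fin_cases i
        · exact congrFun this.1
        · exact congrFun this.2
      · have := span2 ((V * S') (Sum.inr (Sum.inr i))) 0 fun z z0 z1 => by
          obtain ⟨h₁, h₂, h⟩ := main z z0 z1
          have a := congrFun h (Sum.inr (Sum.inr i))
          simp only [mulVec] at a
          rw [a]; simp
        exact congrFun this.1
    have : V = 0 := by rw [← Matrix.mul_one V, ← hS2, ← Matrix.mul_assoc, hT, Matrix.zero_mul]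
    rw [this, Matrix.mul_zero] at hV
    exact zero_ne_one hV

end Pool.Agent.Results.MP_2a866c_an.NotCLP
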